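import Pool.Agent.H3.RCR.Stmts2

/-!
# Project RCR, module V1: relabelling
-/

set_option autoImplicit false

namespace Pool.Agent.H3.RCR

lemma mapT_symm_mapT (σ : Equiv.Perm ℕ) (t : Tri) : mapT σ.symm (mapT σ t) = t := by
  simp [mapT]

lemma mapT_mapT_symm (σ : Equiv.Perm ℕ) (t : Tri) : mapT σ (mapT σ.symm t) = t := by
  simp [mapT]

lemma mapT_perm_injective (σ : Equiv.Perm ℕ) : Function.Injective (mapT σ) :=
  Function.LeftInverse.injective (mapT_symm_mapT σ)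

lemma mem_imgT (σ : Equiv.Perm ℕ) {F : Finset Tri} {t : Tri} :
    t ∈ F.image (mapT σ) ↔ mapT σ.symm t ∈ F := by
  rw [Finset.mem_image]
  constructor
  · rintro ⟨s, hs, rfl⟩
    rwa [mapT_symm_mapT]
  · intro h
    exact ⟨_, h, mapT_mapT_symm σ t⟩

lemma mem_imgT' (σ : Equiv.Perm ℕ) {F : Finset Tri} {t : Tri} :
    mapT σ t ∈ F.image (mapT σ) ↔ t ∈ F := by
  rw [mem_imgT, mapT_symm_mapT]

lemma mem_imgT3 (σ : Equiv.Perm ℕ) {F : Finset Tri} {a b c : ℕ} :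
    (a, b, c) ∈ F.image (mapT σ) ↔ (σ.symm a, σ.symm b, σ.symm c) ∈ F := mem_imgT σ

lemma adj_imgT (σ : Equiv.Perm ℕ) {F : Finset Tri} {a b : ℕ} :
    Adj (F.image (mapT σ)) a b ↔ Adj F (σ.symm a) (σ.symm b) := by
  unfold Adj
  constructor
  · rintro ⟨c, hc⟩
    exact ⟨_, (mem_imgT3 σ).1 hc⟩
  · rintro ⟨c, hc⟩
    exact ⟨σ c, (mem_imgT3 σ).2 (by simpa using hc)⟩

lemma adj_imgT' (σ : Equiv.Perm ℕ) {F : Finset Tri} {a b : ℕ} :
    Adj (F.image (mapT σ)) (σ a) (σ b) ↔ Adj F a b := by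
  rw [adj_imgT]; simp

lemma verts_imgT (σ : Equiv.Perm ℕ) (F : Finset Tri) :
    verts (F.image (mapT σ)) = (verts F).image σ := by
  unfold verts
  rw [Finset.image_image, Finset.image_image]
  rfl

lemma card_imgT (σ : Equiv.Perm ℕ) (F : Finset Tri) : (F.image (mapT σ)).card = F.card :=
  Finset.card_image_of_injective _ (mapT_perm_injective σ)

lemma pre_imgT (σ : Equiv.Perm ℕ) {F : Finset Tri} (h : Pre F) : Pre (F.image (mapT σ)) where
  rot := fun a b c hm => by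
    rw [mem_imgT3] at hm ⊢
    exact h.rot _ _ _ hm
  ne := fun a b c hm => by
    rw [mem_imgT3] at hm
    intro e
    exact h.ne _ _ _ hm (by rw [e])
  uniq := fun a b c d hm hm' => by
    rw [mem_imgT3] at hm hm'
    exact σ.symm.injective (h.uniq _ _ _ _ hm hm')
  opp := fun a b c hm => by
    rw [mem_imgT3] at hm
    obtain ⟨d, hd⟩ := h.opp _ _ _ hm
    exact ⟨σ d, (mem_imgT3 σ).2 (by simpa using hd)⟩

lemma sph_imgT (σ : Equiv.Perm ℕ) {F : Finset Tri} (h : Sph F) : Sph (F.image (mapT σ)) where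
  toPre := pre_imgT σ h.toPre
  link := fun v y z hy hz => by
    rw [adj_imgT] at hy hz
    have := h.link _ _ _ hy hz
    have h2 := Relation.ReflTransGen.lift (r := fun p q => (σ.symm v, p, q) ∈ F)
      (p := fun p q => (v, p, q) ∈ F.image (mapT σ)) σ (fun a b hab => by
        show (v, σ a, σ b) ∈ F.image (mapT σ)
        rw [mem_imgT3]
        simpa using hab) _ _ this
    simpa [Function.onFun] using h2
  conn := fun a b ha hb => by
    rw [verts_imgT, Finset.mem_image] at ha hb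
    obtain ⟨a, ha, rfl⟩ := ha
    obtain ⟨b, hb, rfl⟩ := hb
    exact Relation.ReflTransGen.lift (r := Adj F) (p := Adj (F.image (mapT σ))) σ
      (fun a b hab => (adj_imgT' σ).2 hab) _ _ (h.conn a b ha hb)
  euler := by
    rw [card_imgT, verts_imgT, Finset.card_image_of_injective _ σ.injective]
    exact h.euler

lemma ok_imgT (σ : Equiv.Perm ℕ) {F : Finset Tri} {u v : ℕ} (h : Ok F u v) :
    Ok (F.image (mapT σ)) (σ u) (σ v) where
  adj := (adj_imgT' σ).2 h.adj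
  apex := fun w hw hw' => by
    rw [adj_imgT] at hw hw'
    simp only [Equiv.symm_apply_apply] at hw hw'
    rw [mem_imgT3, mem_imgT3]
    simpa using h.apex _ hw hw'
  dist := fun w hw => by
    rw [mem_imgT3, mem_imgT3] at hw
    refine h.dist (σ.symm w) ?_
    simpa using hw

lemma sub1_perm (σ : Equiv.Perm ℕ) (u v x : ℕ) : sub1 (σ u) (σ v) (σ x) = σ (sub1 u v x) := by
  unfold sub1
  by_cases h : x = u
  · simp [h]
  · simp [h]

lemma mapT_sub1_perm (σ : Equiv.Perm ℕ) (u v : ℕ) (t : Tri) :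
    mapT (sub1 (σ u) (σ v)) (mapT σ t) = mapT σ (mapT (sub1 u v) t) := by
  simp [mapT, sub1_perm]

lemma nd_perm (σ : Equiv.Perm ℕ) (t : Tri) : Nd (mapT σ t) ↔ Nd t := by
  unfold Nd mapT
  simp

lemma contr_imgT (σ : Equiv.Perm ℕ) (F : Finset Tri) (u v : ℕ) :
    contr (F.image (mapT σ)) (σ u) (σ v) = (contr F u v).image (mapT σ) := by
  ext t
  unfold contr
  rw [mem_quo, Finset.mem_image]
  constructor
  · rintro ⟨h1, s', hs', rfl⟩
    obtain ⟨s, hs, rfl⟩ := Finset.mem_image.1 hs'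
    rw [mapT_sub1_perm] at h1 ⊢
    rw [nd_perm] at h1
    exact ⟨_, mem_quo.2 ⟨h1, s, hs, rfl⟩, rfl⟩
  · rintro ⟨s, hs, rfl⟩
    rw [mem_quo] at hs
    obtain ⟨h1, s, hs, rfl⟩ := hs
    exact ⟨(nd_perm σ _).2 h1, mapT σ s, (mem_imgT' σ).2 hs, mapT_sub1_perm σ u v s⟩

lemma rots_perm (σ : Equiv.Perm ℕ) (s t : Tri) : mapT σ s ∈ rots (mapT σ t) ↔ s ∈ rots t := by
  rw [mem_rots, mem_rots]
  obtain ⟨a, b, c⟩ := s
  obtain ⟨a', b', c'⟩ := t
  simp [mapT]

lemma btw_perm (σ : Equiv.Perm ℕ) (p : ℕ → Pt) (t : Tri) :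
    Btw (p ∘ σ.symm) (mapT σ t) ↔ Btw p t := by
  unfold Btw mapT
  simp

lemma rlz_imgT (σ : Equiv.Perm ℕ) {F : Finset Tri} {o : Tri} {Ch : Finset Tri} (h : Rlz F o Ch) :
    Rlz (F.image (mapT σ)) (mapT σ o) (Ch.image (mapT σ)) := by
  obtain ⟨p, hp, hb⟩ := h
  refine ⟨p ∘ σ.symm, ⟨(mem_imgT' σ).2 hp.mem, ?_, ?_⟩, ?_⟩
  · simpa [mapT] using hp.neg
  · intro t ht hto
    obtain ⟨s, hs, rfl⟩ := Finset.mem_image.1 ht
    rw [rots_perm] at hto
    simpa [mapT] using hp.pos s hs hto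
  · intro t ht
    obtain ⟨s, hs, rfl⟩ := Finset.mem_image.1 ht
    exact (btw_perm σ p s).2 (hb s hs)

theorem v1 : V1Stmt := by
  intro σ F G o Ch T
  refine ⟨sph_imgT σ, fun u v => ok_imgT σ, contr_imgT σ F, rlz_imgT σ, fun h => ?_⟩
  refine Relation.ReflTransGen.lift (r := Step {x | x ∉ T} Set.univ)
    (p := Step {x | x ∉ T.image σ} Set.univ) (fun F => F.image (mapT σ)) ?_ _ _ h
  rintro F G ⟨u, v, hu, -, hok, rfl⟩
  refine ⟨σ u, σ v, ?_, trivial, ok_imgT σ hok, (contr_imgT σ F u v).symm⟩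
  simp only [Set.mem_ofPred_eq, Finset.mem_image, not_exists, not_and] at hu ⊢
  intro y hy e
  exact hu (by rwa [← σ.injective e])

end Pool.Agent.H3.RCR
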