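import Pool.Agent.H79.RCR.Stg

/-!
# Project RCR, module V2: completeness of the verifier and the final theorem
-/

set_option autoImplicit false

namespace Pool.Agent.H3.RCR

open TMLib Polynomial N68a2faeb

/-- all triples with labels smaller than `B` -/
def TB (B : ℕ) : Finset Tri := Finset.range B ×ˢ (Finset.range B ×ˢ Finset.range B)

lemma mem_TB {B : ℕ} {t : Tri} : t ∈ TB B ↔ t.1 < B ∧ t.2.1 < B ∧ t.2.2 < B := by
  simp [TB]

open Classical in
/-- the list of all solved instances with labels smaller than `B` -/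
noncomputable def KL (B : ℕ) : List (List Tri × Tri × List Tri) :=
  (((TB B).powerset ×ˢ (TB B ×ˢ (TB B).powerset)).filter fun q => Sph q.1 ∧ Rlz q.1 q.2.1 q.2.2).toList.map
    fun q => (q.1.toList, q.2.1, q.2.2.toList)

lemma kok (B : ℕ) : ∀ q ∈ KL B, KOk q := by
  intro q hq
  simp only [KL, List.mem_map, Finset.mem_toList, Finset.mem_filter] at hq
  obtain ⟨q', ⟨-, h1, h2⟩, rfl⟩ := hq
  unfold KOk
  simp only [Finset.toList_toFinset]
  exact ⟨h1, h2⟩

lemma mem_KL {B : ℕ} {G : Finset Tri} {o : Tri} {Ch : Finset Tri} (h1 : Sph G) (h2 : Rlz G o Ch)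
    (hG : G ⊆ TB B) (ho : o ∈ TB B) (hCh : Ch ⊆ TB B) : (G.toList, o, Ch.toList) ∈ KL B := by
  simp only [KL, List.mem_map, Finset.mem_toList, Finset.mem_filter, Finset.mem_product,
    Finset.mem_powerset]
  exact ⟨(G, o, Ch), ⟨⟨hG, ho, hCh⟩, h1, h2⟩, rfl⟩

lemma sub_TB {F : Finset Tri} (hF : Pre F) {B : ℕ} (h : ∀ y ∈ verts F, y < B) : F ⊆ TB B := by
  rintro ⟨a, b, c⟩ ht
  rw [mem_TB]
  exact ⟨h a (mem_verts.2 ⟨_, _, ht⟩), h b (mem_verts.2 ⟨_, _, hF.rot _ _ _ ht⟩),
    h c (mem_verts.2 ⟨_, _, hF.rot2 ht⟩)⟩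

lemma sz_tri_le {M : ℕ} {t : Tri} (h : t ∈ TB M) : sz t ≤ 6 * M + 5 := by
  rw [mem_TB] at h
  obtain ⟨a, b, c⟩ := t
  simp only [sz_pair, sz_nat] at *
  omega

/-- the data of a realisable instance with small labels -/
structure Dat (k : ℕ) (x : List Bool) (B M : ℕ) (F : Finset Tri) (o : Tri) (T : Finset ℕ)
    (Ch : Finset Tri) (ι : Fin (Nat.sqrt x.length) → ℕ)
    (P : Fin (Nat.sqrt x.length) → Fin (Nat.sqrt x.length) → List ℕ) (G : Finset Tri) : Prop where
  inst : InstOk F o T Ch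
  wit : Wit (graphOf x) F Ch ι P k
  red : Red {x | x ∉ T} Set.univ F G
  rlz : Rlz G o Ch
  len : ∀ a b, (P a b).length ≤ k
  lt : ∀ y ∈ verts F, y < M
  ltG : ∀ y ∈ verts G, y < B
  le : (verts F).card ≤ M

lemma exists_dat (hK2 : K2Stmt) (hA1 : A1Stmt) (hA2 : A2Stmt) (hD1 : D1Stmt) (hD3 : D3Stmt)
    (k : ℕ) : ∃ B, ∀ x : List Bool, rcr (graphOf x) ≤ k →
    ∃ F o T Ch ι P G, Dat k x B (Nat.sqrt x.length + k + 3) F o T Ch ι P G := by
  obtain ⟨B, hB⟩ := hK2 (5 * k + 3)
  refine ⟨B, fun x hx => ?_⟩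
  rw [hD1] at hx
  obtain ⟨p, hp, hcr⟩ := hx
  obtain ⟨F, o, T, Ch, ι, P, hI, hR, hW, hT, hV, hP⟩ := hD3 _ k (graphOf x) p hp hcr
  obtain ⟨G, hred, hRG, hG⟩ := hB F o T Ch hI hT hR
  obtain ⟨l, hl⟩ := steps_of_red hred
  have hst : StOk T o (verts F) F := ⟨hI.sph, hI.sub, hI.mem, Finset.Subset.refl _⟩
  obtain ⟨-, hstG⟩ := steps_length hA1 hA2 hI.oT l F G hst hl
  obtain ⟨σ, hσ1, hσ2⟩ := exists_perm_lt (verts G) (verts F) hstG.vs
  obtain ⟨-, -, -, hv4, hv5⟩ := v1 σ F G o Ch T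
  obtain ⟨-, -, -, hv4', -⟩ := v1 σ G G o Ch T
  refine ⟨F.image (mapT σ), mapT σ o, T.image σ, Ch.image (mapT σ), fun a => σ (ι a),
    fun a b => (P a b).map σ, G.image (mapT σ), instOk_imgT σ hI, wit_imgT σ hW, hv5 hred, hv4' hRG,
    fun a b => by rw [List.length_map]; exact hP a b, ?_, ?_, ?_⟩
  · intro y hy
    rw [verts_imgT, Finset.mem_image] at hy
    obtain ⟨z, hz, rfl⟩ := hy
    exact lt_of_lt_of_le (hσ2 z hz) hV
  · intro y hy
    rw [verts_imgT, Finset.mem_image] at hy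
    obtain ⟨z, hz, rfl⟩ := hy
    exact lt_of_lt_of_le (hσ1 z hz) hG
  · rw [verts_imgT, Finset.card_image_of_injective _ σ.injective]
    exact hV

open Classical in
/-- the paths in the certificate -/
noncomputable def PP {n : ℕ} (Gr : SimpleGraph (Fin n)) (P : Fin n → Fin n → List ℕ)
    (a b : Fin n) : List ℕ := if a < b ∧ Gr.Adj a b then P a b else []

/-- the set of crossing pairs -/
def CrS {n : ℕ} (Gr : SimpleGraph (Fin n)) (P : Fin n → Fin n → List ℕ) :
    Set ((Fin n × Fin n) × (Fin n × Fin n)) :=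
  {q | q.1.1 < q.1.2 ∧ q.2.1 < q.2.2 ∧
    q.1.1 < q.2.1 ∧ q.1.2 ≠ q.2.1 ∧ q.1.2 ≠ q.2.2 ∧ Gr.Adj q.1.1 q.1.2 ∧ Gr.Adj q.2.1 q.2.2 ∧
    ∃ x, x ∈ P q.1.1 q.1.2 ∧ x ∈ P q.2.1 q.2.2}

/-- from pairs of `Fin` to pairs of numbers -/
def vl {n : ℕ} (q : (Fin n × Fin n) × (Fin n × Fin n)) : (ℕ × ℕ) × (ℕ × ℕ) :=
  ((q.1.1, q.1.2), (q.2.1, q.2.2))

/-- the certificate -/
noncomputable def mkC {n : ℕ} (Gr : SimpleGraph (Fin n)) (F : Finset Tri) (l : List (ℕ × ℕ)) (o : Tri)
    (Ch : Finset Tri) (ι : Fin n → ℕ) (P : Fin n → Fin n → List ℕ) : Ce :=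
  ((n, (stg F l).map Finset.toList), l, (o, Ch.toList),
    (List.ofFn ι, List.ofFn fun a => List.ofFn fun b => PP Gr P a b),
    (Set.toFinite (CrS Gr P)).toFinset.toList.map vl)

section

variable {n : ℕ} (Gr : SimpleGraph (Fin n)) (F : Finset Tri) (l : List (ℕ × ℕ)) (o : Tri)
    (Ch : Finset Tri) (ι : Fin n → ℕ) (P : Fin n → Fin n → List ℕ)

lemma stC_mkC (i : ℕ) : stC (mkC Gr F l o Ch ι P) i = ((stg F l).getD i ∅).toList := by
  unfold stC mkC
  rcases Nat.lt_or_ge i (stg F l).length with h | h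
  · rw [List.getD_eq_getElem _ _ (by simpa using h), List.getD_eq_getElem _ _ h]
    simp
  · rw [List.getD_eq_default _ _ (by simpa using h), List.getD_eq_default _ _ h]
    simp

lemma ioC_mkC (a : Fin n) : ioC (mkC Gr F l o Ch ι P) a = ι a := by
  unfold ioC mkC
  rw [List.getD_eq_getElem _ _ (by simp)]
  simp

lemma paC_mkC (a b : Fin n) : paC (mkC Gr F l o Ch ι P) a b = PP Gr P a b := by
  unfold paC mkC
  have e : (List.ofFn fun a => List.ofFn fun b => PP Gr P a b).getD a [] =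
      List.ofFn fun b => PP Gr P a b := by
    rw [List.getD_eq_getElem _ [] (by simp)]
    simp
  rw [e, List.getD_eq_getElem _ [] (by simp)]
  simp

end

lemma exists_of_isChain {R : ℕ → ℕ → Prop} : ∀ (l : List ℕ) (a : ℕ), List.IsChain R (a :: l) →
    ∀ y ∈ l, ∃ z, R z y
  | [], _, _, y, hy => by simp at hy
  | b :: l, a, h, y, hy => by
    rw [List.isChain_cons_cons] at h
    rw [List.mem_cons] at hy
    rcases hy with rfl | hy
    · exact ⟨a, h.1⟩
    · exact exists_of_isChain l b h.2 y hy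

theorem chk_complete (hA1 : A1Stmt) (hA2 : A2Stmt) {k : ℕ} {x : List Bool} {B M : ℕ}
    {F : Finset Tri} {o : Tri} {T : Finset ℕ} {Ch : Finset Tri} {ι : Fin (Nat.sqrt x.length) → ℕ}
    {P : Fin (Nat.sqrt x.length) → Fin (Nat.sqrt x.length) → List ℕ} {G : Finset Tri}
    (h : Dat k x B M F o T Ch ι P G) (hM : Nat.sqrt x.length ≤ M) :
    ∃ c : Ce, ChkW k x c ∧ ChkS c ∧ ChkK (KL B) c ∧
      sz c ≤ 30 + (2 * M + (M + 1) * (1 + (1 + 6 * M * (1 + (6 * M + 5))))) +
        (M * (1 + (4 * M + 3))) + ((6 * M + 5) + M ^ 3 * (1 + (6 * M + 5))) +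
        (M * (1 + (2 * M + 1)) + M * (1 + (1 + M * (1 + (1 + k * (1 + (2 * M + 1))))))) +
        k * (1 + (8 * M + 7)) := by
  classical
  obtain ⟨l, hl⟩ := steps_of_red h.red
  have hst : StOk T o (verts F) F := ⟨h.inst.sph, h.inst.sub, h.inst.mem, Finset.Subset.refl _⟩
  obtain ⟨hlen, hstG⟩ := steps_length hA1 hA2 h.inst.oT l F G hst hl
  obtain ⟨s1, s2, s3, s4⟩ := steps_stg hA1 hA2 h.inst.oT l F G hst hl
  have hadj : ∀ a b : Fin (Nat.sqrt x.length),
      (graphOf x).Adj a b ↔ adjX x (Nat.sqrt x.length) a b := by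
    intro a b
    unfold graphOf adjX
    simp only
    rw [ne_eq, ne_eq, Fin.ext_iff]
  let c := mkC (graphOf x) F l o Ch ι P
  have e0 : stC c 0 = F.toList := by
    show stC (mkC (graphOf x) F l o Ch ι P) 0 = _
    rw [stC_mkC, stg_zero]
  have eio : ∀ a : Fin (Nat.sqrt x.length), ioC c a = ι a := ioC_mkC _ _ _ _ _ _ _
  have epa : ∀ a b : Fin (Nat.sqrt x.length), a < b → (graphOf x).Adj a b → paC c a b = P a b := by
    intro a b hab hab'
    show paC (mkC (graphOf x) F l o Ch ι P) a b = _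
    rw [paC_mkC, PP, if_pos ⟨hab, hab'⟩]
  have ewa : ∀ a b : Fin (Nat.sqrt x.length), a < b → (graphOf x).Adj a b →
      waC c a b = ι a :: (P a b ++ [ι b]) := by
    intro a b hab hab'
    unfold waC
    rw [eio, eio, epa a b hab hab']
  have hCrc : ((Set.toFinite (CrS (graphOf x) P)).toFinset.toList.map vl).length ≤ k := by
    rw [List.length_map, Finset.length_toList, ← Set.ncard_eq_toFinset_card _ (Set.toFinite _)]
    exact h.wit.cross
  refine ⟨c, ⟨?_, ?_, ?_, ?_, ?_, hCrc⟩, ?_, ?_, ?_⟩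
  · exact ⟨Nat.sqrt_le _, Nat.lt_succ_sqrt _⟩
  · intro a ha b hb hab
    have ha' : a < Nat.sqrt x.length := ha
    have hb' : b < Nat.sqrt x.length := hb
    have e1 := eio ⟨a, ha'⟩
    have e2 := eio ⟨b, hb'⟩
    simp only at e1 e2
    rw [e1, e2]
    intro e
    exact hab (congrArg Fin.val (h.wit.inj e))
  · intro a ha
    have ha' : a < Nat.sqrt x.length := ha
    have e1 := eio ⟨a, ha'⟩
    simp only at e1
    rw [e1, e0]
    obtain ⟨y, z, hyz⟩ := mem_verts.1 (h.wit.mem ⟨a, ha'⟩)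
    exact ⟨_, Finset.mem_toList.2 hyz, rfl⟩
  · intro a ha b hb hab hadj'
    have ha' : a < Nat.sqrt x.length := ha
    have hb' : b < Nat.sqrt x.length := hb
    have hadj2 : (graphOf x).Adj ⟨a, ha'⟩ ⟨b, hb'⟩ := (hadj _ _).2 hadj'
    have hlt : (⟨a, ha'⟩ : Fin (Nat.sqrt x.length)) < ⟨b, hb'⟩ := hab
    have e1 := epa _ _ hlt hadj2
    have e2 := ewa _ _ hlt hadj2
    simp only at e1 e2
    rw [e1, e2, e0]
    refine ⟨fun i hi => ?_, fun i hi => ?_, fun d hd => ?_⟩
    · have h1 := getD_of_isChain _ (h.wit.chain _ _ hlt hadj2) i (by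
        simp only [List.length_cons, List.length_append, List.length_nil]
        omega)
      rw [adjL_iff, Finset.toList_toFinset]
      exact h1
    · have h1 := infix_of_getD (l := ι ⟨a, ha'⟩ :: (P ⟨a, ha'⟩ ⟨b, hb'⟩ ++ [ι ⟨b, hb'⟩])) (i := i) (by
        simp only [List.length_cons, List.length_append, List.length_nil]
        omega)
      exact Finset.mem_toList.2 (h.wit.trip _ _ hlt hadj2 _ _ _ h1)
    · have hd' : d < Nat.sqrt x.length := hd
      have e3 := eio ⟨d, hd'⟩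
      simp only at e3
      rw [e3]
      exact h.wit.new _ _ hlt hadj2 _
  · intro a ha b hb d hd e he hab hde had hbd hbe hadj1 hadj2 hcommon
    have ha' : a < Nat.sqrt x.length := ha
    have hb' : b < Nat.sqrt x.length := hb
    have hd' : d < Nat.sqrt x.length := hd
    have he' : e < Nat.sqrt x.length := he
    have hadj3 : (graphOf x).Adj ⟨a, ha'⟩ ⟨b, hb'⟩ := (hadj _ _).2 hadj1
    have hadj4 : (graphOf x).Adj ⟨d, hd'⟩ ⟨e, he'⟩ := (hadj _ _).2 hadj2
    have e1 := epa ⟨a, ha'⟩ ⟨b, hb'⟩ hab hadj3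
    have e2 := epa ⟨d, hd'⟩ ⟨e, he'⟩ hde hadj4
    simp only at e1 e2
    rw [e1, e2] at hcommon
    have hmem : ((⟨a, ha'⟩, ⟨b, hb'⟩), (⟨d, hd'⟩, ⟨e, he'⟩)) ∈ CrS (graphOf x) P := by
      obtain ⟨y, hy1, hy2⟩ := hcommon
      refine ⟨hab, hde, had, ?_, ?_, hadj3, hadj4, y, hy1, hy2⟩
      · intro h1; exact hbd (congrArg Fin.val h1)
      · intro h1; exact hbe (congrArg Fin.val h1)
    show _ ∈ (Set.toFinite (CrS (graphOf x) P)).toFinset.toList.map vl
    rw [List.mem_map]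
    exact ⟨_, Finset.mem_toList.2 ((Set.Finite.mem_toFinset _).2 hmem), rfl⟩
  · -- the contractions
    intro i hi
    have hi' : i < l.length := hi
    obtain ⟨g1, g2, g3, g4⟩ := s4 i hi'
    have es : ∀ j, stC c j = ((stg F l).getD j ∅).toList := stC_mkC _ _ _ _ _ _ _
    rw [es, es]
    refine ⟨?_, ?_, ?_, ?_, ?_, ?_⟩
    · rw [preL_iff, Finset.toList_toFinset]
      exact g4.sph.toPre
    · rw [okL_iff, Finset.toList_toFinset]
      exact g2
    · rw [contrL_iff, Finset.toList_toFinset, Finset.toList_toFinset]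
      exact g3
    · exact Finset.mem_toList.2 g4.mem
    · have ho := h.inst.oT
      refine ⟨fun e => g1 ?_, fun e => g1 ?_, fun e => g1 ?_⟩
      · exact ho _ (Or.inl e)
      · exact ho _ (Or.inr (Or.inl e))
      · exact ho _ (Or.inr (Or.inr e))
    · intro t ht
      have ht' : t ∈ Ch := Finset.mem_toList.1 ht
      obtain ⟨k1, k2, k3, -, -⟩ := h.inst.ch t ht'
      refine ⟨fun e => g1 ?_, fun e => g1 ?_, fun e => g1 ?_⟩
      · exact e ▸ k1
      · exact e ▸ k2
      · exact e ▸ k3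
  · -- the last stage
    have es : stC c c.2.1.length = G.toList := by
      have : stC c l.length = ((stg F l).getD l.length ∅).toList := stC_mkC _ _ _ _ _ _ _ _
      rw [s2] at this
      exact this
    refine ⟨(G.toList, o, Ch.toList), ?_, ?_, ?_, rfl, fun t ht => ht⟩
    · refine mem_KL hstG.sph h.rlz (sub_TB hstG.sph.toPre h.ltG) ?_ ?_
      · rw [mem_TB]
        exact ⟨h.ltG _ (hstG.sub (h.inst.oT _ (Or.inl rfl))),
          h.ltG _ (hstG.sub (h.inst.oT _ (Or.inr (Or.inl rfl)))),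
          h.ltG _ (hstG.sub (h.inst.oT _ (Or.inr (Or.inr rfl))))⟩
      · intro t ht
        obtain ⟨k1, k2, k3, -, -⟩ := h.inst.ch t ht
        rw [mem_TB]
        exact ⟨h.ltG _ (hstG.sub k1), h.ltG _ (hstG.sub k2), h.ltG _ (hstG.sub k3)⟩
    · intro t ht
      rw [es] at ht
      exact ht
    · intro t ht
      rw [es]
      exact ht
  · -- the size
    have z1 : sz (Nat.sqrt x.length) ≤ 2 * M + 1 := by rw [sz_nat]; omega
    have z2 : sz ((stg F l).map Finset.toList) ≤ 1 + (M + 1) * (1 + (1 + 6 * M * (1 + (6 * M + 5)))) := by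
      refine sz_list_le _ _ _ (by rw [List.length_map, length_stg]; have := h.le; omega) ?_
      intro A hA
      rw [List.mem_map] at hA
      obtain ⟨A, hA, rfl⟩ := hA
      have hA' := s1 A hA
      refine sz_list_le _ _ _ ?_ fun t ht => ?_
      · rw [Finset.length_toList]
        have h1 := hA'.sph.euler
        have h2 := Finset.card_le_card hA'.vs
        have h3 := h.le
        omega
      · refine sz_tri_le (sub_TB hA'.sph.toPre (fun y hy => h.lt y (hA'.vs hy)) ?_)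
        exact Finset.mem_toList.1 ht
    have z3 : sz l ≤ 1 + M * (1 + (4 * M + 3)) := by
      refine sz_list_le _ _ _ (hlen.trans h.le) ?_
      intro e he
      obtain ⟨h1, h2⟩ := s3 e he
      have h3 := h.lt _ h1
      have h4 := h.lt _ h2
      rw [sz_pair, sz_nat, sz_nat]
      omega
    have z4 : sz o ≤ 6 * M + 5 := by
      exact sz_tri_le (sub_TB h.inst.sph.toPre h.lt h.inst.mem)
    have hChTB : Ch ⊆ TB M := by
      intro t ht
      obtain ⟨k1, k2, k3, -, -⟩ := h.inst.ch t ht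
      rw [mem_TB]
      exact ⟨h.lt _ (h.inst.sub k1), h.lt _ (h.inst.sub k2), h.lt _ (h.inst.sub k3)⟩
    have z5 : sz Ch.toList ≤ 1 + M ^ 3 * (1 + (6 * M + 5)) := by
      refine sz_list_le _ _ _ ?_ fun t ht => sz_tri_le (hChTB (Finset.mem_toList.1 ht))
      rw [Finset.length_toList]
      refine (Finset.card_le_card hChTB).trans ?_
      rw [TB, Finset.card_product, Finset.card_product, Finset.card_range]
      apply le_of_eq
      ring
    have z6 : sz (List.ofFn ι) ≤ 1 + M * (1 + (2 * M + 1)) := by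
      refine sz_list_le _ _ _ (by rw [List.length_ofFn]; exact hM) ?_
      intro y hy
      rw [List.mem_ofFn] at hy
      obtain ⟨a, rfl⟩ := hy
      have := h.lt _ (h.wit.mem a)
      rw [sz_nat]
      omega
    have z7 : sz (List.ofFn fun a => List.ofFn fun b => PP (graphOf x) P a b) ≤
        1 + M * (1 + (1 + M * (1 + (1 + k * (1 + (2 * M + 1)))))) := by
      refine sz_list_le _ _ _ (by rw [List.length_ofFn]; exact hM) ?_
      intro y hy
      rw [List.mem_ofFn] at hy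
      obtain ⟨a, rfl⟩ := hy
      refine sz_list_le _ _ _ (by rw [List.length_ofFn]; exact hM) ?_
      intro y hy
      rw [List.mem_ofFn] at hy
      obtain ⟨b, rfl⟩ := hy
      unfold PP
      split_ifs with hab
      · refine sz_list_le _ _ _ (h.len a b) ?_
        intro y hy
        have h1 : y ∈ verts F := by
          have h2 := h.wit.chain a b hab.1 hab.2
          obtain ⟨z, hz⟩ := exists_of_isChain _ _ h2 y (by simp [hy])
          exact h.inst.sph.toPre.mem_right hz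
        have := h.lt y h1
        rw [sz_nat]
        omega
      · simp
    have z8 : sz ((Set.toFinite (CrS (graphOf x) P)).toFinset.toList.map vl) ≤
        1 + k * (1 + (8 * M + 7)) := by
      refine sz_list_le _ _ _ hCrc ?_
      intro q hq
      rw [List.mem_map] at hq
      obtain ⟨⟨⟨a, b⟩, ⟨d, e⟩⟩, -, rfl⟩ := hq
      have ha := a.2
      have hb := b.2
      have hd := d.2
      have he := e.2
      simp only [vl, sz_pair, sz_nat]
      omega
    have ec : sz c = 1 + (1 + sz (Nat.sqrt x.length) + sz ((stg F l).map Finset.toList)) +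
        (1 + sz l + (1 + (1 + sz o + sz Ch.toList) + (1 + (1 + sz (List.ofFn ι) +
        sz (List.ofFn fun a => List.ofFn fun b => PP (graphOf x) P a b)) +
        sz ((Set.toFinite (CrS (graphOf x) P)).toFinset.toList.map vl)))) := by
      simp only [c, mkC, sz_pair]
    rw [ec]
    omega

/-- the polynomial bound for the certificates -/
noncomputable def pol (k : ℕ) : ℕ[X] :=
  30 + (2 * (X + C (k + 3)) + ((X + C (k + 3)) + 1) * (1 + (1 + 6 * (X + C (k + 3)) *
      (1 + (6 * (X + C (k + 3)) + 5))))) +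
    ((X + C (k + 3)) * (1 + (4 * (X + C (k + 3)) + 3))) +
    ((6 * (X + C (k + 3)) + 5) + (X + C (k + 3)) ^ 3 * (1 + (6 * (X + C (k + 3)) + 5))) +
    ((X + C (k + 3)) * (1 + (2 * (X + C (k + 3)) + 1)) + (X + C (k + 3)) * (1 + (1 +
      (X + C (k + 3)) * (1 + (1 + C k * (1 + (2 * (X + C (k + 3)) + 1))))))) +
    C k * (1 + (8 * (X + C (k + 3)) + 7))

theorem v2 (hK2 : K2Stmt) (hA1 : A1Stmt) (hA2 : A2Stmt) (hA3 : A3Stmt) (hG7 : G7Stmt)
    (hD1 : D1Stmt) (hD2 : D2Stmt) (hD3 : D3Stmt) : V2Stmt := by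
  intro k
  obtain ⟨B, hB⟩ := exists_dat hK2 hA1 hA2 hD1 hD3 k
  obtain ⟨V1, hV1, hV1'⟩ := pdec_W k
  obtain ⟨V2, hV2, hV2'⟩ := pdec_S
  obtain ⟨V3, hV3, hV3'⟩ := pdec_K (KL B)
  refine mem_NP_cert (β := Ce) (V := fun x c => V1 (x, c) && (V2 (x, c) && V3 (x, c))) ?_ (pol k) ?_ ?_
  · exact PTime.and hV1 (PTime.and hV2 hV3)
  · intro x c h
    simp only [Bool.and_eq_true] at h
    obtain ⟨h1, h2, h3⟩ := h
    have := chk_sound hA3 hG7 hD1 hD2 k (kok B) ((hV1' _).1 h1) ((hV2' _).1 h2) ((hV3' _).1 h3)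
    simpa [RCRk] using this
  · intro x hx
    have hx' : rcr (graphOf x) ≤ k := by simpa [RCRk] using hx
    obtain ⟨F, o, T, Ch, ι, P, G, hd⟩ := hB x hx'
    obtain ⟨c, h1, h2, h3, h4⟩ := chk_complete hA1 hA2 hd (by omega)
    refine ⟨c, h4.trans ?_, ?_⟩
    · have hs : Nat.sqrt x.length + k + 3 ≤ x.length + (k + 3) := by
        have := Nat.sqrt_le_self x.length
        omega
      have e : (pol k).eval x.length = 30 + (2 * (x.length + (k + 3)) + ((x.length + (k + 3)) + 1) *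
          (1 + (1 + 6 * (x.length + (k + 3)) * (1 + (6 * (x.length + (k + 3)) + 5))))) +
          ((x.length + (k + 3)) * (1 + (4 * (x.length + (k + 3)) + 3))) +
          ((6 * (x.length + (k + 3)) + 5) + (x.length + (k + 3)) ^ 3 *
            (1 + (6 * (x.length + (k + 3)) + 5))) +
          ((x.length + (k + 3)) * (1 + (2 * (x.length + (k + 3)) + 1)) +
            (x.length + (k + 3)) * (1 + (1 + (x.length + (k + 3)) *
            (1 + (1 + k * (1 + (2 * (x.length + (k + 3)) + 1))))))) +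
          k * (1 + (8 * (x.length + (k + 3)) + 7)) := by
        simp [pol]
      rw [e]
      generalize x.length + (k + 3) = Y at hs
      generalize Nat.sqrt x.length + k + 3 = M at hs
      gcongr
    · simp only [Bool.and_eq_true]
      exact ⟨(hV1' _).2 h1, (hV2' _).2 h2, (hV3' _).2 h3⟩

end Pool.Agent.H3.RCR
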