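import Pool.Agent.H3.RCR.Stmts2
import Pool.Agent.H79.PD

/-!
# Project RCR, module V2: the verifier
-/

set_option autoImplicit false

namespace Pool.Agent.H3.RCR

open TMLib

/-! ### Predicates on lists of triples -/

/-- `Pre` for lists -/
def PreL (F : List Tri) : Prop :=
  (∀ t ∈ F, (t.2.1, t.2.2, t.1) ∈ F) ∧ (∀ t ∈ F, t.1 ≠ t.2.1) ∧
  (∀ t ∈ F, ∀ s ∈ F, t.1 = s.1 → t.2.1 = s.2.1 → t.2.2 = s.2.2) ∧
  ∀ t ∈ F, ∃ s ∈ F, s.1 = t.2.1 ∧ s.2.1 = t.1

/-- `Adj` for lists -/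
def AdjL (F : List Tri) (a b : ℕ) : Prop := ∃ t ∈ F, t.1 = a ∧ t.2.1 = b

/-- `Ok` for lists -/
def OkL (F : List Tri) (u v : ℕ) : Prop := AdjL F u v ∧
  (∀ t ∈ F, ∀ s ∈ F, t.1 = u → s.1 = v → t.2.1 = s.2.1 → (u, v, t.2.1) ∈ F ∨ (v, u, t.2.1) ∈ F) ∧
  ∀ t ∈ F, t.1 = u → t.2.1 = v → (v, u, t.2.2) ∉ F

/-- `contr` for lists -/
def ContrL (F : List Tri) (u v : ℕ) (G : List Tri) : Prop :=
  (∀ t ∈ G, (t.1 ≠ t.2.1 ∧ t.2.1 ≠ t.2.2 ∧ t.2.2 ≠ t.1) ∧ ∃ s ∈ F, mapT (sub1 u v) s = t) ∧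
  ∀ s ∈ F, ((mapT (sub1 u v) s).1 ≠ (mapT (sub1 u v) s).2.1 ∧
    (mapT (sub1 u v) s).2.1 ≠ (mapT (sub1 u v) s).2.2 ∧
    (mapT (sub1 u v) s).2.2 ≠ (mapT (sub1 u v) s).1) → mapT (sub1 u v) s ∈ G

lemma adjL_iff {F : List Tri} {a b : ℕ} : AdjL F a b ↔ Adj F.toFinset a b := by
  unfold AdjL Adj
  constructor
  · rintro ⟨⟨a', b', c⟩, h, rfl, rfl⟩
    exact ⟨c, by simpa using h⟩
  · rintro ⟨c, h⟩
    exact ⟨(a, b, c), by simpa using h, rfl, rfl⟩

lemma preL_iff {F : List Tri} : PreL F ↔ Pre F.toFinset := by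
  constructor
  · rintro ⟨h1, h2, h3, h4⟩
    refine ⟨fun a b c h => ?_, fun a b c h => ?_, fun a b c d h h' => ?_, fun a b c h => ?_⟩
    · rw [List.mem_toFinset] at h ⊢
      exact h1 _ h
    · rw [List.mem_toFinset] at h
      exact h2 _ h
    · rw [List.mem_toFinset] at h h'
      exact h3 _ h _ h' rfl rfl
    · rw [List.mem_toFinset] at h
      obtain ⟨⟨a', b', d⟩, hs, e1, e2⟩ := h4 _ h
      simp only at e1 e2
      subst e1 e2
      exact ⟨d, by rwa [List.mem_toFinset]⟩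
  · intro h
    refine ⟨fun t ht => ?_, fun t ht => ?_, fun t ht s hs e1 e2 => ?_, fun t ht => ?_⟩
    · have := h.rot t.1 t.2.1 t.2.2 (by rwa [List.mem_toFinset])
      rwa [List.mem_toFinset] at this
    · exact h.ne t.1 t.2.1 t.2.2 (by rwa [List.mem_toFinset])
    · obtain ⟨a, b, c⟩ := t
      obtain ⟨a', b', c'⟩ := s
      simp only at e1 e2
      subst e1 e2
      exact h.uniq a b c c' (by rwa [List.mem_toFinset]) (by rwa [List.mem_toFinset])
    · obtain ⟨d, hd⟩ := h.opp t.1 t.2.1 t.2.2 (by rwa [List.mem_toFinset])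
      rw [List.mem_toFinset] at hd
      exact ⟨_, hd, rfl, rfl⟩

lemma okL_iff {F : List Tri} {u v : ℕ} : OkL F u v ↔ Ok F.toFinset u v := by
  constructor
  · rintro ⟨h1, h2, h3⟩
    refine ⟨adjL_iff.1 h1, fun w hw hw' => ?_, fun w hw => ?_⟩
    · obtain ⟨c, hc⟩ := hw
      obtain ⟨d, hd⟩ := hw'
      rw [List.mem_toFinset] at hc hd
      have := h2 _ hc _ hd rfl rfl rfl
      simpa using this
    · rw [List.mem_toFinset, List.mem_toFinset] at hw
      exact h3 _ hw.1 rfl rfl hw.2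
  · rintro ⟨h1, h2, h3⟩
    refine ⟨adjL_iff.2 h1, fun t ht s hs e1 e2 e3 => ?_, fun t ht e1 e2 e3 => ?_⟩
    · have := h2 t.2.1 ⟨t.2.2, by rw [List.mem_toFinset, ← e1]; exact ht⟩
        ⟨s.2.2, by rw [List.mem_toFinset, ← e2, e3]; exact hs⟩
      simpa using this
    · refine h3 t.2.2 ⟨?_, ?_⟩
      · rw [List.mem_toFinset, ← e1, ← e2]; exact ht
      · rw [List.mem_toFinset]; exact e3

lemma contrL_iff {F G : List Tri} {u v : ℕ} : ContrL F u v G ↔ G.toFinset = contr F.toFinset u v := by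
  unfold contr
  constructor
  · rintro ⟨h1, h2⟩
    ext t
    rw [List.mem_toFinset, mem_quo]
    constructor
    · intro ht
      obtain ⟨h3, s, hs, rfl⟩ := h1 t ht
      exact ⟨h3, s, by rwa [List.mem_toFinset], rfl⟩
    · rintro ⟨h3, s, hs, rfl⟩
      rw [List.mem_toFinset] at hs
      exact h2 s hs h3
  · intro h
    constructor
    · intro t ht
      have ht' : t ∈ G.toFinset := by rwa [List.mem_toFinset]
      rw [h, mem_quo] at ht'
      obtain ⟨h3, s, hs, e⟩ := ht'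
      exact ⟨h3, s, by rwa [List.mem_toFinset] at hs, e⟩
    · intro s hs h3
      have : mapT (sub1 u v) s ∈ G.toFinset := by
        rw [h, mem_quo]
        exact ⟨h3, s, by rwa [List.mem_toFinset], rfl⟩
      rwa [List.mem_toFinset] at this

/-! ### The certificate -/

/-- certificates: number of vertices and stages; contracted edges; outer face and straight triples;
placement of the vertices and paths of the edges; crossing pairs of edges -/
abbrev Ce := (ℕ × List (List Tri)) × List (ℕ × ℕ) × (Tri × List Tri) ×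
  (List ℕ × List (List (List ℕ))) × List ((ℕ × ℕ) × (ℕ × ℕ))

/-- adjacency read from the input -/
def adjX (x : List Bool) (n a b : ℕ) : Prop :=
  a ≠ b ∧ (x.getD (a * n + b) false = true ∨ x.getD (b * n + a) false = true)

/-- the path of an edge -/
def paC (c : Ce) (a b : ℕ) : List ℕ := (c.2.2.2.1.2.getD a []).getD b []

/-- the place of a vertex -/
def ioC (c : Ce) (a : ℕ) : ℕ := c.2.2.2.1.1.getD a 0

/-- the whole path -/
def waC (c : Ce) (a b : ℕ) : List ℕ := ioC c a :: (paC c a b ++ [ioC c b])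

/-- the stages -/
def stC (c : Ce) (i : ℕ) : List Tri := c.1.2.getD i []

/-- the checks about the drawing -/
def ChkW (k : ℕ) (x : List Bool) (c : Ce) : Prop :=
  (c.1.1 * c.1.1 ≤ x.length ∧ x.length < (c.1.1 + 1) * (c.1.1 + 1)) ∧
  (∀ a, a < c.1.1 → ∀ b, b < c.1.1 → a ≠ b → ioC c a ≠ ioC c b) ∧
  (∀ a, a < c.1.1 → ∃ t ∈ stC c 0, t.1 = ioC c a) ∧
  (∀ a, a < c.1.1 → ∀ b, b < c.1.1 → a < b → adjX x c.1.1 a b →
    (∀ i, i < (paC c a b).length + 1 → AdjL (stC c 0) ((waC c a b).getD i 0) ((waC c a b).getD (i + 1) 0)) ∧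
    (∀ i, i < (paC c a b).length →
      ((waC c a b).getD i 0, (waC c a b).getD (i + 1) 0, (waC c a b).getD (i + 2) 0) ∈ c.2.2.1.2) ∧
    ∀ d, d < c.1.1 → ioC c d ∉ paC c a b) ∧
  (∀ a, a < c.1.1 → ∀ b, b < c.1.1 → ∀ d, d < c.1.1 → ∀ e, e < c.1.1 → a < b → d < e → a < d →
    b ≠ d → b ≠ e → adjX x c.1.1 a b → adjX x c.1.1 d e → (∃ y ∈ paC c a b, y ∈ paC c d e) →
    ((a, b), (d, e)) ∈ c.2.2.2.2) ∧
  c.2.2.2.2.length ≤ k

/-- the checks about the contractions -/
def ChkS (c : Ce) : Prop :=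
  ∀ i, i < c.2.1.length → PreL (stC c i) ∧
    OkL (stC c i) (c.2.1.getD i (0, 0)).1 (c.2.1.getD i (0, 0)).2 ∧
    ContrL (stC c i) (c.2.1.getD i (0, 0)).1 (c.2.1.getD i (0, 0)).2 (stC c (i + 1)) ∧
    c.2.2.1.1 ∈ stC c i ∧
    ((c.2.1.getD i (0, 0)).1 ≠ c.2.2.1.1.1 ∧ (c.2.1.getD i (0, 0)).1 ≠ c.2.2.1.1.2.1 ∧
      (c.2.1.getD i (0, 0)).1 ≠ c.2.2.1.1.2.2) ∧
    ∀ t ∈ c.2.2.1.2, (c.2.1.getD i (0, 0)).1 ≠ t.1 ∧ (c.2.1.getD i (0, 0)).1 ≠ t.2.1 ∧
      (c.2.1.getD i (0, 0)).1 ≠ t.2.2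

/-- the check of the last stage against a finite list of solved instances -/
def ChkK (KL : List (List Tri × Tri × List Tri)) (c : Ce) : Prop :=
  ∃ q ∈ KL, (∀ t ∈ stC c c.2.1.length, t ∈ q.1) ∧ (∀ t ∈ q.1, t ∈ stC c c.2.1.length) ∧
    c.2.2.1.1 = q.2.1 ∧ ∀ t ∈ c.2.2.1.2, t ∈ q.2.2

section ptime

variable {α : Type} [Enc α]

@[fun_prop] lemma ptime_sub1 {u v x : α → ℕ} (hu : PTime u) (hv : PTime v) (hx : PTime x) :
    PTime (fun y => sub1 (u y) (v y) (x y)) := by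
  unfold sub1
  fun_prop

@[fun_prop] lemma ptime_mapT {u v : α → ℕ} {t : α → Tri} (hu : PTime u) (hv : PTime v)
    (ht : PTime t) : PTime (fun y => mapT (sub1 (u y) (v y)) (t y)) := by
  unfold mapT
  fun_prop

@[fun_prop] lemma ptime_paC {c : α → Ce} {a b : α → ℕ} (hc : PTime c) (ha : PTime a) (hb : PTime b) :
    PTime (fun y => paC (c y) (a y) (b y)) := by
  unfold paC
  fun_prop

@[fun_prop] lemma ptime_ioC {c : α → Ce} {a : α → ℕ} (hc : PTime c) (ha : PTime a) :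
    PTime (fun y => ioC (c y) (a y)) := by
  unfold ioC
  fun_prop

@[fun_prop] lemma ptime_waC {c : α → Ce} {a b : α → ℕ} (hc : PTime c) (ha : PTime a) (hb : PTime b) :
    PTime (fun y => waC (c y) (a y) (b y)) := by
  unfold waC
  fun_prop

@[fun_prop] lemma ptime_stC {c : α → Ce} {a : α → ℕ} (hc : PTime c) (ha : PTime a) :
    PTime (fun y => stC (c y) (a y)) := by
  unfold stC
  fun_prop

end ptime

lemma pdec_W (k : ℕ) : PDec (fun p : List Bool × Ce => ChkW k p.1 p.2) := by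
  unfold ChkW AdjL adjX
  repeat (first
    | exact PDec.of_bool (by fun_prop)
    | exact PDec.of_bool' (by fun_prop)
    | refine PDec.forall_lt (by fun_prop) ?_
    | refine PDec.exists_lt (by fun_prop) ?_
    | refine PDec.forall_mem (by fun_prop) ?_
    | refine PDec.exists_mem (by fun_prop) ?_
    | refine PDec.and ?_ ?_
    | refine PDec.or ?_ ?_
    | exact PDec.lt (by fun_prop) (by fun_prop)
    | exact PDec.le (by fun_prop) (by fun_prop)
    | exact PDec.ne (by fun_prop) (by fun_prop)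
    | exact PDec.eq (by fun_prop) (by fun_prop)
    | exact PDec.not_mem (by fun_prop) (by fun_prop)
    | exact PDec.mem (by fun_prop) (by fun_prop)
    | refine PDec.not ?_
    | refine PDec.iff ?_ ?_
    | refine PDec.imp ?_ ?_)

lemma pdec_S : PDec (fun p : List Bool × Ce => ChkS p.2) := by
  unfold ChkS PreL OkL ContrL AdjL
  repeat (first
    | exact PDec.of_bool (by fun_prop)
    | exact PDec.of_bool' (by fun_prop)
    | refine PDec.forall_lt (by fun_prop) ?_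
    | refine PDec.exists_lt (by fun_prop) ?_
    | refine PDec.forall_mem (by fun_prop) ?_
    | refine PDec.exists_mem (by fun_prop) ?_
    | refine PDec.and ?_ ?_
    | refine PDec.or ?_ ?_
    | exact PDec.lt (by fun_prop) (by fun_prop)
    | exact PDec.le (by fun_prop) (by fun_prop)
    | exact PDec.ne (by fun_prop) (by fun_prop)
    | exact PDec.eq (by fun_prop) (by fun_prop)
    | exact PDec.not_mem (by fun_prop) (by fun_prop)
    | exact PDec.mem (by fun_prop) (by fun_prop)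
    | refine PDec.not ?_
    | refine PDec.iff ?_ ?_
    | refine PDec.imp ?_ ?_)

lemma pdec_K (KL : List (List Tri × Tri × List Tri)) :
    PDec (fun p : List Bool × Ce => ChkK KL p.2) := by
  unfold ChkK
  refine PDec.exists_const KL fun q _ => ?_
  repeat (first
    | exact PDec.of_bool (by fun_prop)
    | exact PDec.of_bool' (by fun_prop)
    | refine PDec.forall_lt (by fun_prop) ?_
    | refine PDec.exists_lt (by fun_prop) ?_
    | refine PDec.forall_mem (by fun_prop) ?_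
    | refine PDec.exists_mem (by fun_prop) ?_
    | refine PDec.and ?_ ?_
    | refine PDec.or ?_ ?_
    | exact PDec.lt (by fun_prop) (by fun_prop)
    | exact PDec.le (by fun_prop) (by fun_prop)
    | exact PDec.ne (by fun_prop) (by fun_prop)
    | exact PDec.eq (by fun_prop) (by fun_prop)
    | exact PDec.not_mem (by fun_prop) (by fun_prop)
    | exact PDec.mem (by fun_prop) (by fun_prop)
    | refine PDec.not ?_
    | refine PDec.iff ?_ ?_
    | refine PDec.imp ?_ ?_)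

end Pool.Agent.H3.RCR
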