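import Pool.Agent.H79.RCR.Chk

/-!
# Project RCR, module V2: soundness of the verifier
-/

set_option autoImplicit false

namespace Pool.Agent.H3.RCR

open TMLib

lemma rlz_up (hA3 : A3Stmt) (hG7 : G7Stmt) {F : Finset Tri} {u v : ℕ} {o : Tri} {Ch : Finset Tri}
    (hF : Pre F) (hok : Ok F u v) (hS : Sph (contr F u v)) (hR : Rlz (contr F u v) o Ch)
    (ho : o ∈ F) (hu : ¬ isV u o) (hCh : ∀ t ∈ Ch, u ≠ t.1 ∧ u ≠ t.2.1 ∧ u ≠ t.2.2) :
    Sph F ∧ Rlz F o Ch := by
  have hSF := hA3 F u v hF hok hS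
  obtain ⟨p, hp, hb⟩ := hR
  obtain ⟨q, hq⟩ := hG7 F u v o p hSF hok ho hu hp
  refine ⟨hSF, _, hq, fun t ht => ?_⟩
  obtain ⟨h1, h2, h3⟩ := hCh t ht
  have hbt := hb t ht
  unfold Btw at hbt ⊢
  rw [Function.update_of_ne (Ne.symm h1), Function.update_of_ne (Ne.symm h2),
    Function.update_of_ne (Ne.symm h3)]
  exact hbt

/-- a member of the list of solved instances -/
def KOk (q : List Tri × Tri × List Tri) : Prop :=
  Sph q.1.toFinset ∧ Rlz q.1.toFinset q.2.1 q.2.2.toFinset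

lemma rlz_mono {F : Finset Tri} {o : Tri} {Ch Ch' : Finset Tri} (h : Rlz F o Ch) (h' : Ch' ⊆ Ch) :
    Rlz F o Ch' := by
  obtain ⟨p, hp, hb⟩ := h
  exact ⟨p, hp, fun t ht => hb t (h' ht)⟩

lemma chk_rlz (hA3 : A3Stmt) (hG7 : G7Stmt) {KL : List (List Tri × Tri × List Tri)}
    (hKL : ∀ q ∈ KL, KOk q) {c : Ce} (hS : ChkS c) (hK : ChkK KL c) :
    Sph (stC c 0).toFinset ∧ Rlz (stC c 0).toFinset c.2.2.1.1 c.2.2.1.2.toFinset := by
  have key : ∀ j, j ≤ c.2.1.length → Sph (stC c (c.2.1.length - j)).toFinset ∧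
      Rlz (stC c (c.2.1.length - j)).toFinset c.2.2.1.1 c.2.2.1.2.toFinset := by
    intro j
    induction j with
    | zero =>
      intro _
      obtain ⟨q, hq, h1, h2, h3, h4⟩ := hK
      have e : (stC c c.2.1.length).toFinset = q.1.toFinset := by
        ext t
        rw [List.mem_toFinset, List.mem_toFinset]
        exact ⟨h1 t, h2 t⟩
      obtain ⟨h5, h6⟩ := hKL q hq
      rw [Nat.sub_zero, e, h3]
      refine ⟨h5, rlz_mono h6 fun t ht => ?_⟩
      rw [List.mem_toFinset] at ht ⊢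
      exact h4 t ht
    | succ j ih =>
      intro hj
      obtain ⟨h1, h2⟩ := ih (by omega)
      have e : c.2.1.length - j = c.2.1.length - (j + 1) + 1 := by omega
      obtain ⟨g1, g2, g3, g4, ⟨g5, g5', g5''⟩, g6⟩ := hS (c.2.1.length - (j + 1)) (by omega)
      rw [contrL_iff] at g3
      rw [e, g3] at h1 h2
      rw [okL_iff] at g2
      rw [preL_iff] at g1
      refine rlz_up hA3 hG7 g1 g2 h1 h2 (by rwa [List.mem_toFinset]) ?_ fun t ht => ?_
      · rintro (h | h | h)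
        · exact g5 h
        · exact g5' h
        · exact g5'' h
      · exact g6 t (by rwa [List.mem_toFinset] at ht)
  have := key c.2.1.length le_rfl
  rwa [Nat.sub_self] at this

lemma isChain_of_getD {R : ℕ → ℕ → Prop} : ∀ (l : List ℕ),
    (∀ i, i + 1 < l.length → R (l.getD i 0) (l.getD (i + 1) 0)) → List.IsChain R l
  | [], _ => by simp
  | [a], _ => by simp
  | a :: b :: l, h => by
    rw [List.isChain_cons_cons]
    refine ⟨by simpa using h 0 (by simp), isChain_of_getD (b :: l) fun i hi => ?_⟩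
    have := h (i + 1) (by simp only [List.length_cons] at hi ⊢; omega)
    simpa using this

lemma getD_of_isChain {R : ℕ → ℕ → Prop} : ∀ (l : List ℕ), List.IsChain R l →
    ∀ i, i + 1 < l.length → R (l.getD i 0) (l.getD (i + 1) 0)
  | [], _, i, hi => by simp at hi
  | [a], _, i, hi => by simp at hi
  | a :: b :: l, h, i, hi => by
    rw [List.isChain_cons_cons] at h
    cases i with
    | zero => simpa using h.1
    | succ i =>
      have := getD_of_isChain (b :: l) h.2 i (by simp only [List.length_cons] at hi ⊢; omega)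
      simpa using this

lemma getD_of_infix {x y z : ℕ} {l : List ℕ} (h : [x, y, z] <:+: l) :
    ∃ i, i + 2 < l.length ∧ l.getD i 0 = x ∧ l.getD (i + 1) 0 = y ∧ l.getD (i + 2) 0 = z := by
  obtain ⟨s, t, rfl⟩ := h
  refine ⟨s.length, by simp, ?_, ?_, ?_⟩
  · simp
  · simp [List.append_assoc]
  · simp [List.append_assoc]

lemma infix_of_getD {l : List ℕ} {i : ℕ} (h : i + 2 < l.length) :
    [l.getD i 0, l.getD (i + 1) 0, l.getD (i + 2) 0] <:+: l := by
  refine ⟨l.take i, l.drop (i + 3), ?_⟩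
  have h1 : l.drop i = l.getD i 0 :: l.getD (i + 1) 0 :: l.getD (i + 2) 0 :: l.drop (i + 3) := by
    rw [List.getD_eq_getElem _ _ (by omega : i < l.length),
      List.getD_eq_getElem _ _ (by omega : i + 1 < l.length), List.getD_eq_getElem _ _ h,
      List.drop_eq_getElem_cons (by omega : i < l.length),
      List.drop_eq_getElem_cons (by omega : i + 1 < l.length), List.drop_eq_getElem_cons h]
  rw [List.append_assoc]
  conv_rhs => rw [← List.take_append_drop i l, h1]
  rfl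

theorem chk_sound (hA3 : A3Stmt) (hG7 : G7Stmt) (hD1 : D1Stmt) (hD2 : D2Stmt) (k : ℕ)
    {KL : List (List Tri × Tri × List Tri)} (hKL : ∀ q ∈ KL, KOk q) {x : List Bool} {c : Ce}
    (hW : ChkW k x c) (hS : ChkS c) (hK : ChkK KL c) : rcr (graphOf x) ≤ k := by
  classical
  obtain ⟨hSph, p, hp, hb⟩ := chk_rlz hA3 hG7 hKL hS hK
  obtain ⟨⟨hn1, hn2⟩, hinj, hmem, hpath, hcr, hk⟩ := hW
  have hn : Nat.sqrt x.length = c.1.1 := (Nat.eq_sqrt.2 ⟨hn1, hn2⟩).symm
  set n := Nat.sqrt x.length with hndef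
  have hadj : ∀ a b : Fin n, (graphOf x).Adj a b ↔ adjX x c.1.1 a b := by
    intro a b
    rw [← hn]
    unfold graphOf adjX
    simp only
    rw [ne_eq, ne_eq, Fin.ext_iff]
  rw [hD1]
  refine ⟨_, hD2 _ k (graphOf x) (stC c 0).toFinset c.2.2.1.1 c.2.2.1.2.toFinset
    (fun a => ioC c a) (fun a b => paC c a b) p hSph hp hb ?_⟩
  refine ⟨fun a b hab => ?_, fun a => ?_, fun a b hab hadj' => ?_, fun a b hab hadj' => ?_,
    fun a b hab hadj' d => ?_, ?_⟩
  · by_contra hne
    exact hinj a (by rw [← hn]; exact a.2) b (by rw [← hn]; exact b.2)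
      (fun e => hne (Fin.ext e)) hab
  · obtain ⟨t, ht, e⟩ := hmem a (by rw [← hn]; exact a.2)
    rw [mem_verts]
    refine ⟨t.2.1, t.2.2, ?_⟩
    rw [List.mem_toFinset]
    show (ioC c a, t.2.1, t.2.2) ∈ _
    rw [← e]
    exact ht
  · obtain ⟨h1, -, -⟩ := hpath a (by rw [← hn]; exact a.2) b (by rw [← hn]; exact b.2) hab
      ((hadj a b).1 hadj')
    refine isChain_of_getD _ fun i hi => ?_
    have hi' : i < (paC c a b).length + 1 := by
      simp only [List.length_cons, List.length_append, List.length_nil] at hi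
      omega
    exact adjL_iff.1 (h1 i hi')
  · obtain ⟨-, h1, -⟩ := hpath a (by rw [← hn]; exact a.2) b (by rw [← hn]; exact b.2) hab
      ((hadj a b).1 hadj')
    intro y1 y2 y3 hin
    obtain ⟨i, hi, rfl, rfl, rfl⟩ := getD_of_infix hin
    rw [List.mem_toFinset]
    exact h1 i (by
      simp only [List.length_cons, List.length_append, List.length_nil] at hi
      omega)
  · obtain ⟨-, -, h1⟩ := hpath a (by rw [← hn]; exact a.2) b (by rw [← hn]; exact b.2) hab
      ((hadj a b).1 hadj')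
    exact h1 d (by rw [← hn]; exact d.2)
  · refine le_trans ?_ (le_trans (List.toFinset_card_le c.2.2.2.2) hk)
    rw [← Set.ncard_coe_finset]
    refine Set.ncard_le_ncard_of_injOn
      (fun q : (Fin n × Fin n) × (Fin n × Fin n) => (((q.1.1 : ℕ), (q.1.2 : ℕ)), ((q.2.1 : ℕ), (q.2.2 : ℕ))))
      ?_ ?_ (Finset.finite_toSet _)
    · rintro ⟨⟨a, b⟩, ⟨d, e⟩⟩ ⟨h1, h2, h3, h4, h5, h6, h7, y, hy1, hy2⟩
      simp only at h1 h2 h3 h4 h5 h6 h7 hy1 hy2
      simp only [Finset.mem_coe, List.mem_toFinset]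
      exact hcr a (by rw [← hn]; exact a.2) b (by rw [← hn]; exact b.2) d (by rw [← hn]; exact d.2)
        e (by rw [← hn]; exact e.2) h1 h2 h3 (fun e => h4 (Fin.ext e)) (fun e => h5 (Fin.ext e))
        ((hadj a b).1 h6) ((hadj d e).1 h7) ⟨y, hy1, hy2⟩
    · rintro ⟨⟨a, b⟩, ⟨d, e⟩⟩ - ⟨⟨a', b'⟩, ⟨d', e'⟩⟩ - h
      simp only [Prod.mk.injEq, Fin.val_inj] at h ⊢
      exact h

end Pool.Agent.H3.RCR
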