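import Pool.Agent.H79.RCR.Snd
import Pool.Agent.H79.RCR.V1

/-!
# Project RCR, module V2: sequences of contractions and relabelling for the completeness
-/

set_option autoImplicit false

namespace Pool.Agent.H3.RCR

open TMLib

/-! ### Sequences of contractions as lists -/

/-- a sequence of contractions given by a list of edges -/
def Steps (T : Finset ℕ) : Finset Tri → List (ℕ × ℕ) → Finset Tri → Prop
  | F, [], G => F = G
  | F, e :: l, G => e.1 ∉ T ∧ Ok F e.1 e.2 ∧ Steps T (contr F e.1 e.2) l G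

lemma steps_of_red {T : Finset ℕ} {F G : Finset Tri} (h : Red {x | x ∉ T} Set.univ F G) :
    ∃ l, Steps T F l G := by
  induction h using Relation.ReflTransGen.head_induction_on with
  | refl => exact ⟨[], rfl⟩
  | head h1 _ ih =>
    obtain ⟨u, v, hu, -, hok, rfl⟩ := h1
    obtain ⟨l, hl⟩ := ih
    exact ⟨(u, v) :: l, hu, hok, hl⟩

/-- the stages of a sequence of contractions -/
def stg : Finset Tri → List (ℕ × ℕ) → List (Finset Tri)
  | F, [] => [F]
  | F, e :: l => F :: stg (contr F e.1 e.2) l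

lemma length_stg (F : Finset Tri) (l : List (ℕ × ℕ)) : (stg F l).length = l.length + 1 := by
  induction l generalizing F with
  | nil => rfl
  | cons e l ih => simp [stg, ih]

lemma stg_zero (F : Finset Tri) (l : List (ℕ × ℕ)) : (stg F l).getD 0 ∅ = F := by
  cases l <;> rfl

/-- what is true at every stage -/
structure StOk (T : Finset ℕ) (o : Tri) (V : Finset ℕ) (F : Finset Tri) : Prop where
  sph : Sph F
  sub : T ⊆ verts F
  mem : o ∈ F
  vs : verts F ⊆ V

lemma StOk.contr (hA1 : A1Stmt) (hA2 : A2Stmt) {T : Finset ℕ} {o : Tri} {V : Finset ℕ}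
    {F : Finset Tri} (h : StOk T o V F) (ho : ∀ x, isV x o → x ∈ T) {u v : ℕ} (hu : u ∉ T)
    (hok : Ok F u v) : StOk T o V (contr F u v) := by
  obtain ⟨h1, h2, h3, h4, h5, h6, h7, h8⟩ := hA1 F u v h.sph.toPre hok
  refine ⟨hA2 F u v h.sph hok, ?_, h6 o h.mem fun e => hu (ho _ e), ?_⟩
  · rw [h2]
    intro x hx
    rw [Finset.mem_erase]
    exact ⟨fun e => hu (e ▸ hx), h.sub hx⟩
  · rw [h2]
    exact (Finset.erase_subset _ _).trans h.vs

lemma steps_length (hA1 : A1Stmt) (hA2 : A2Stmt) {T : Finset ℕ} {o : Tri} {V : Finset ℕ}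
    (ho : ∀ x, isV x o → x ∈ T) (l : List (ℕ × ℕ)) : ∀ (F G : Finset Tri), StOk T o V F →
    Steps T F l G → l.length ≤ (verts F).card ∧ StOk T o V G := by
  induction l with
  | nil =>
    rintro F G hF rfl
    exact ⟨Nat.zero_le _, hF⟩
  | cons e l ih =>
    rintro F G hF ⟨h1, h2, h3⟩
    have h4 := hF.contr hA1 hA2 ho h1 h2
    obtain ⟨h5, h6⟩ := ih _ _ h4 h3
    refine ⟨?_, h6⟩
    obtain ⟨-, h7, -⟩ := hA1 F e.1 e.2 hF.sph.toPre h2
    rw [h7, Finset.card_erase_of_mem (mem_verts'.2 ⟨_, h2.adj⟩)] at h5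
    have h8 : 0 < (verts F).card := Finset.card_pos.2 ⟨e.1, mem_verts'.2 ⟨_, h2.adj⟩⟩
    rw [List.length_cons]
    omega

lemma steps_stg (hA1 : A1Stmt) (hA2 : A2Stmt) {T : Finset ℕ} {o : Tri} {V : Finset ℕ}
    (ho : ∀ x, isV x o → x ∈ T) (l : List (ℕ × ℕ)) : ∀ (F G : Finset Tri), StOk T o V F →
    Steps T F l G → (∀ A ∈ stg F l, StOk T o V A) ∧ (stg F l).getD l.length ∅ = G ∧
    (∀ e ∈ l, e.1 ∈ V ∧ e.2 ∈ V) ∧
    ∀ i, i < l.length → (l.getD i (0, 0)).1 ∉ T ∧
      Ok ((stg F l).getD i ∅) (l.getD i (0, 0)).1 (l.getD i (0, 0)).2 ∧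
      (stg F l).getD (i + 1) ∅ = contr ((stg F l).getD i ∅) (l.getD i (0, 0)).1 (l.getD i (0, 0)).2 ∧
      StOk T o V ((stg F l).getD i ∅) := by
  induction l with
  | nil =>
    rintro F G hF rfl
    refine ⟨by simp [stg, hF], rfl, by simp, by simp⟩
  | cons e l ih =>
    rintro F G hF ⟨h1, h2, h3⟩
    have h4 := hF.contr hA1 hA2 ho h1 h2
    obtain ⟨h5, h6, h7, h8⟩ := ih _ _ h4 h3
    refine ⟨?_, ?_, ?_, ?_⟩
    · intro A hA
      simp only [stg, List.mem_cons] at hA
      rcases hA with rfl | hA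
      · exact hF
      · exact h5 A hA
    · simpa [stg] using h6
    · intro e' he'
      rw [List.mem_cons] at he'
      rcases he' with rfl | he'
      · exact ⟨hF.vs (mem_verts'.2 ⟨_, h2.adj⟩), hF.vs (hF.sph.toPre.mem_right h2.adj)⟩
      · exact h7 e' he'
    · intro i hi
      cases i with
      | zero =>
        refine ⟨by simpa using h1, by simpa [stg] using h2, ?_, by simpa [stg] using hF⟩
        have := stg_zero (contr F e.1 e.2) l
        simpa [stg] using this
      | succ i =>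
        have := h8 i (by simpa using hi)
        simpa [stg] using this

/-! ### Relabelling -/

lemma exists_perm_eqOn (S : Finset ℕ) (f : ℕ → ℕ) (hf : Set.InjOn f S) :
    ∃ σ : Equiv.Perm ℕ, ∀ y ∈ S, σ y = f y := by
  classical
  let e1 : (S : Set ℕ) ≃ (f '' S : Set ℕ) := Equiv.Set.imageOfInjOn f S hf
  have i1 : Infinite ((S : Set ℕ)ᶜ : Set ℕ) := (S.finite_toSet.infinite_compl).to_subtype
  have i2 : Infinite ((f '' S : Set ℕ)ᶜ : Set ℕ) :=
    ((S.finite_toSet.image f).infinite_compl).to_subtype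
  obtain ⟨e2⟩ := nonempty_equiv_of_countable (α := ((S : Set ℕ)ᶜ : Set ℕ))
    (β := ((f '' S : Set ℕ)ᶜ : Set ℕ))
  refine ⟨(Equiv.Set.sumCompl (S : Set ℕ)).symm.trans ((Equiv.sumCongr e1 e2).trans
    (Equiv.Set.sumCompl (f '' S : Set ℕ))), fun y hy => ?_⟩
  have hy' : y ∈ (S : Set ℕ) := hy
  simp only [Equiv.trans_apply]
  rw [Equiv.Set.sumCompl_symm_apply_of_mem hy']
  rfl

lemma exists_perm_lt (A V : Finset ℕ) (hAV : A ⊆ V) :
    ∃ σ : Equiv.Perm ℕ, (∀ y ∈ A, σ y < A.card) ∧ ∀ y ∈ V, σ y < V.card := by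
  classical
  let L : List ℕ := A.toList ++ (V \ A).toList
  have hL : ∀ y, y ∈ L ↔ y ∈ V := by
    intro y
    simp only [L, List.mem_append, Finset.mem_toList, Finset.mem_sdiff]
    constructor
    · rintro (h | h)
      · exact hAV h
      · exact h.1
    · intro h
      by_cases hA : y ∈ A
      · exact Or.inl hA
      · exact Or.inr ⟨h, hA⟩
  have hlen : L.length = V.card := by
    simp only [L, List.length_append, Finset.length_toList]
    rw [Finset.card_sdiff_of_subset hAV]
    have := Finset.card_le_card hAV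
    omega
  obtain ⟨σ, hσ⟩ := exists_perm_eqOn V (fun y => L.idxOf y) (by
    intro y hy z hz h
    exact (List.idxOf_inj ((hL y).2 hy)).1 h)
  refine ⟨σ, fun y hy => ?_, fun y hy => ?_⟩
  · rw [hσ y (hAV hy)]
    have h1 : y ∈ A.toList := Finset.mem_toList.2 hy
    simp only [L]
    rw [List.idxOf_append_of_mem h1, ← Finset.length_toList]
    exact List.idxOf_lt_length_of_mem h1
  · rw [hσ y hy, ← hlen]
    exact List.idxOf_lt_length_of_mem ((hL y).2 hy)

lemma instOk_imgT (σ : Equiv.Perm ℕ) {F : Finset Tri} {o : Tri} {T : Finset ℕ} {Ch : Finset Tri}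
    (h : InstOk F o T Ch) :
    InstOk (F.image (mapT σ)) (mapT σ o) (T.image σ) (Ch.image (mapT σ)) where
  sph := sph_imgT σ h.sph
  mem := (mem_imgT' σ).2 h.mem
  oT := fun x hx => by
    have h1 : isV (σ.symm x) o := by
      unfold isV mapT at hx
      unfold isV
      rcases hx with rfl | rfl | rfl <;> simp
    exact Finset.mem_image.2 ⟨_, h.oT _ h1, by simp⟩
  sub := by
    rw [verts_imgT]
    exact Finset.image_subset_image h.sub
  ch := fun t ht => by
    obtain ⟨s, hs, rfl⟩ := Finset.mem_image.1 ht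
    obtain ⟨h1, h2, h3, h4, h5⟩ := h.ch s hs
    exact ⟨Finset.mem_image_of_mem _ h1, Finset.mem_image_of_mem _ h2, Finset.mem_image_of_mem _ h3,
      (adj_imgT' σ).2 h4, (adj_imgT' σ).2 h5⟩

lemma wit_imgT (σ : Equiv.Perm ℕ) {n k : ℕ} {G : SimpleGraph (Fin n)} {F Ch : Finset Tri}
    {ι : Fin n → ℕ} {P : Fin n → Fin n → List ℕ} (h : Wit G F Ch ι P k) :
    Wit G (F.image (mapT σ)) (Ch.image (mapT σ)) (fun a => σ (ι a)) (fun a b => (P a b).map σ) k where
  inj := fun a b hab => h.inj (σ.injective hab)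
  mem := fun a => by
    rw [verts_imgT]
    exact Finset.mem_image_of_mem _ (h.mem a)
  chain := fun a b hab hadj => by
    have h1 := h.chain a b hab hadj
    have h2 : (σ (ι a) :: ((P a b).map σ ++ [σ (ι b)])) = (ι a :: (P a b ++ [ι b])).map σ := by simp
    rw [h2, List.isChain_map]
    exact h1.imp fun x y hxy => (adj_imgT' σ).2 hxy
  trip := fun a b hab hadj x y z hin => by
    have h2 : (σ (ι a) :: ((P a b).map σ ++ [σ (ι b)])) = (ι a :: (P a b ++ [ι b])).map σ := by simp
    rw [h2] at hin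
    have h3 : [σ.symm x, σ.symm y, σ.symm z] <:+: (ι a :: (P a b ++ [ι b])) := by
      have := hin.map σ.symm
      rw [List.map_map] at this
      simpa using this
    rw [mem_imgT3]
    exact h.trip a b hab hadj _ _ _ h3
  new := fun a b hab hadj c hc => by
    simp only [List.mem_map] at hc
    obtain ⟨y, hy, e⟩ := hc
    rw [σ.injective e] at hy
    exact h.new a b hab hadj c hy
  cross := by
    refine le_trans (le_of_eq ?_) h.cross
    congr 1
    ext q
    simp only [Set.mem_ofPred_eq, List.mem_map]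
    refine and_congr_right fun _ => and_congr_right fun _ => and_congr_right fun _ =>
      and_congr_right fun _ => and_congr_right fun _ => and_congr_right fun _ =>
      and_congr_right fun _ => ?_
    constructor
    · rintro ⟨x, ⟨y, hy, rfl⟩, z, hz, e⟩
      rw [σ.injective e] at hz
      exact ⟨y, hy, hz⟩
    · rintro ⟨x, hx, hx'⟩
      exact ⟨σ x, ⟨x, hx, rfl⟩, x, hx', rfl⟩

end Pool.Agent.H3.RCR
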